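import Pool.Agent.U474.SP.Red

set_option autoImplicit false
set_option maxHeartbeats 400000

/-!
# The lower bound near the curve `y = 0`
-/

open Set Topology Filter
open scoped ContDiff

namespace Pool.Agent.U474.SP

open Pool.Agent.Y184.SP Pool.Agent.U84.SP

/-- the function near the curve, with the parameter as a third variable -/
noncomputable def rh (p : ℂ × (ℂ × ℂ)) : ℝ :=
  bump p.2.1 * Real.log (‖p.2.2 / p.2.1 - 1‖ ^ 2 + ‖p.1 * p.2.1‖ ^ 2)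

theorem rh_cd {n : ℕ∞} (p : ℂ × (ℂ × ℂ)) (hx : p.2.1 ≠ 0)
    (hp : 0 < ‖p.2.2 / p.2.1 - 1‖ ^ 2 + ‖p.1 * p.2.1‖ ^ 2) : ContDiffAt ℝ n rh p := by
  unfold rh
  refine ContDiffAt.mul ?_ ?_
  · exact (bump.contDiff.comp (contDiff_fst.comp contDiff_snd)).contDiffAt
  · refine cd_log_two (V := ℂ × (ℂ × ℂ)) (f := fun p => p.2.2 / p.2.1 - 1)
      (g := fun p => p.1 * p.2.1) ?_ ?_ hp
    · have h : ContDiffAt ℂ ω (fun p : ℂ × (ℂ × ℂ) => p.2.2 / p.2.1 - 1) p := by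
        fun_prop (disch := assumption)
      exact (omega_real h).of_le (by exact_mod_cast le_top)
    · fun_prop

theorem rh_line0 (x v1 : ℂ) : lv rh (0, (x, 0)) (0, (v1, 0)) = 0 := by
  have h : (fun ζ : ℂ => rh ((0, (x, 0)) + ζ • (0, (v1, 0)))) = fun _ => (0 : ℝ) := by
    funext ζ
    simp [rh]
  unfold lv
  rw [h, lap_def]
  simp [iteratedFDeriv_const_of_ne (𝕜 := ℝ) (n := 2) (by norm_num) (0 : ℝ)]

theorem pos_small {x y : ℂ} (κ : ℂ) (hx : 1 / 8 ≤ ‖x‖) (hy : ‖y‖ < 1 / 16) :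
    0 < ‖y / x - 1‖ ^ 2 + ‖κ * x‖ ^ 2 := by
  have h1 : ‖y / x‖ < 1 := by
    rw [norm_div, div_lt_one (by linarith)]
    linarith
  have h2 : y / x - 1 ≠ 0 := by
    intro h
    have h3 : y / x = 1 := sub_eq_zero.1 h
    rw [h3, norm_one] at h1
    exact lt_irrefl _ h1
  have h3 := norm_pos_iff.2 h2
  positivity

/-- the form which has to be positive -/
noncomputable def FF (ε C : ℝ) (q : ℂ × ℂ) (t : ℂ × (ℂ × ℂ)) : ℝ :=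
  lv rh (q.1, (t.1, q.2)) (0, t.2) + 4 * C * ‖t.2.2‖ ^ 2 + ε / 4 * (‖t.2.1‖ ^ 2 + ‖t.2.2‖ ^ 2)

theorem FF_cont (ε C : ℝ) {x : ℂ} (hx : 1 / 8 ≤ ‖x‖) (v : ℂ × ℂ) :
    ContinuousAt (fun p : (ℂ × ℂ) × (ℂ × (ℂ × ℂ)) => FF ε C p.1 p.2) ((0, 0), (x, v)) := by
  unfold FF
  have hx0 : x ≠ 0 := by
    rintro rfl
    simp at hx
    linarith
  have h1 : ContinuousAt (fun p : (ℂ × (ℂ × ℂ)) × (ℂ × (ℂ × ℂ)) => lv rh p.1 p.2)
      ((0, (x, 0)), (0, v)) :=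
    lv_cont _ (rh_cd (n := 2) _ hx0 (pos_small 0 hx (by simp)))
  have h2 : ContinuousAt (fun p : (ℂ × ℂ) × (ℂ × (ℂ × ℂ)) =>
      (((p.1.1, (p.2.1, p.1.2)), (0, p.2.2)) : (ℂ × (ℂ × ℂ)) × (ℂ × (ℂ × ℂ))))
      ((0, 0), (x, v)) := by
    fun_prop
  have h3 : ContinuousAt (fun p : (ℂ × ℂ) × (ℂ × (ℂ × ℂ)) =>
      lv rh (p.1.1, (p.2.1, p.1.2)) (0, p.2.2)) ((0, 0), (x, v)) :=
    ContinuousAt.comp (g := fun p : (ℂ × (ℂ × ℂ)) × (ℂ × (ℂ × ℂ)) => lv rh p.1 p.2)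
      (f := fun p : (ℂ × ℂ) × (ℂ × (ℂ × ℂ)) =>
        (((p.1.1, (p.2.1, p.1.2)), (0, p.2.2)) : (ℂ × (ℂ × ℂ)) × (ℂ × (ℂ × ℂ)))) h1 h2
  refine ContinuousAt.add (ContinuousAt.add h3 ?_) ?_
  · fun_prop
  · fun_prop

theorem FF_mono (ε : ℝ) {C C' : ℝ} (h : C ≤ C') (q : ℂ × ℂ) (t : ℂ × (ℂ × ℂ)) :
    FF ε C q t ≤ FF ε C' q t := by
  unfold FF
  have : C * ‖t.2.2‖ ^ 2 ≤ C' * ‖t.2.2‖ ^ 2 := by gcongr
  linarith

theorem loc {ε : ℝ} (hε : 0 < ε) {x : ℂ} (hx : 1 / 8 ≤ ‖x‖) {v : ℂ × ℂ} (hv : v ≠ 0) :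
    ∃ C : ℝ, 0 ≤ C ∧ 0 < FF ε C (0, 0) (x, v) := by
  by_cases h2 : v.2 = 0
  · refine ⟨0, le_refl _, ?_⟩
    have h1 : v.1 ≠ 0 := by
      intro h
      exact hv (Prod.ext h h2)
    have e : v = (v.1, 0) := Prod.ext rfl h2
    unfold FF
    rw [e]
    simp only
    rw [rh_line0]
    have := norm_pos_iff.2 h1
    simp
    positivity
  · have h3 := norm_pos_iff.2 h2
    refine ⟨(|lv rh (0, (x, 0)) (0, v)| + 1) / (4 * ‖v.2‖ ^ 2), by positivity, ?_⟩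
    unfold FF
    simp only
    have h4 : 4 * ((|lv rh (0, (x, 0)) (0, v)| + 1) / (4 * ‖v.2‖ ^ 2)) * ‖v.2‖ ^ 2 =
        |lv rh (0, (x, 0)) (0, v)| + 1 := by
      field_simp
    rw [h4]
    have h5 := neg_abs_le (lv rh (0, (x, 0)) (0, v))
    have h6 : 0 ≤ ε / 4 * (‖v.1‖ ^ 2 + ‖v.2‖ ^ 2) := by positivity
    linarith

theorem unif {ε : ℝ} (hε : 0 < ε) : ∃ C : ℝ, 0 ≤ C ∧ ∀ᶠ q : ℂ × ℂ in 𝓝 (0, 0),
    ∀ t : ℂ × (ℂ × ℂ), 1 / 8 ≤ ‖t.1‖ → ‖t.1‖ ≤ 1 / 4 → ‖t.2‖ = 1 → 0 < FF ε C q t := by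
  have hT : IsCompact ((Metric.closedBall (0 : ℂ) (1 / 4) ∩ {x : ℂ | 1 / 8 ≤ ‖x‖}) ×ˢ
      Metric.sphere (0 : ℂ × ℂ) 1) := by
    refine IsCompact.prod ?_ (isCompact_sphere _ _)
    exact (isCompact_closedBall _ _).inter_right
      (isClosed_le continuous_const continuous_norm)
  have h := hT.induction_on (p := fun S => ∃ C : ℝ, 0 ≤ C ∧ ∀ᶠ q : ℂ × ℂ in 𝓝 (0, 0),
      ∀ t ∈ S, 0 < FF ε C q t) ?_ ?_ ?_ ?_
  · obtain ⟨C, hC, h⟩ := h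
    refine ⟨C, hC, ?_⟩
    filter_upwards [h] with q hq t h1 h2 h3
    exact hq t ⟨⟨by simpa using h2, h1⟩, by simpa using h3⟩
  · exact ⟨0, le_refl _, by simp⟩
  · rintro S S' hS ⟨C, hC, h⟩
    refine ⟨C, hC, ?_⟩
    filter_upwards [h] with q hq t ht
    exact hq t (hS ht)
  · rintro S S' ⟨C, hC, h⟩ ⟨C', hC', h'⟩
    refine ⟨max C C', le_trans hC (le_max_left _ _), ?_⟩
    filter_upwards [h, h'] with q hq hq' t ht
    rcases ht with ht | ht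
    · exact (hq t ht).trans_le (FF_mono ε (le_max_left _ _) q t)
    · exact (hq' t ht).trans_le (FF_mono ε (le_max_right _ _) q t)
  · rintro ⟨x, v⟩ ⟨⟨-, hx⟩, hv⟩
    have hv0 : v ≠ 0 := by
      rintro rfl
      simp at hv
    obtain ⟨C, hC, h⟩ := loc hε hx hv0
    have h1 : ∀ᶠ p : (ℂ × ℂ) × (ℂ × (ℂ × ℂ)) in 𝓝 ((0, 0), (x, v)), 0 < FF ε C p.1 p.2 :=
      continuousAt_const.eventually_lt (FF_cont ε C hx v) h
    rw [nhds_prod_eq, eventually_prod_iff] at h1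
    obtain ⟨pa, ha, pb, hb, hab⟩ := h1
    refine ⟨{t | pb t}, mem_nhdsWithin_of_mem_nhds hb, C, hC, ?_⟩
    filter_upwards [ha] with q hq t ht
    exact hab hq ht

/-- all directions -/
theorem unif' {ε : ℝ} (hε : 0 < ε) : ∃ C δ : ℝ, 0 ≤ C ∧ 0 < δ ∧ δ ≤ 1 / 16 ∧ ∀ κ x y : ℂ,
    ∀ v : ℂ × ℂ, ‖κ‖ < δ → ‖y‖ < δ → 1 / 8 ≤ ‖x‖ → ‖x‖ ≤ 1 / 4 → 0 ≤ FF ε C (κ, y) (x, v) := by
  obtain ⟨C, hC, h⟩ := unif hε
  rw [Metric.eventually_nhds_iff] at h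
  obtain ⟨δ, hδ, h⟩ := h
  refine ⟨C, min δ (1 / 16), hC, lt_min hδ (by norm_num), min_le_right _ _, ?_⟩
  intro κ x y v hκ hy hx hx'
  have hx0 : x ≠ 0 := by
    rintro rfl
    simp at hx
    linarith
  by_cases hv : v = 0
  · subst hv
    unfold FF
    have e : ((0, (0 : ℂ × ℂ)) : ℂ × (ℂ × ℂ)) = 0 := rfl
    simp only
    rw [e, lv_zero]
    simp
  have hn : 0 < ‖v‖ := norm_pos_iff.2 hv
  have h1 : ‖((‖v‖⁻¹ : ℝ) : ℂ) • v‖ = 1 := by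
    rw [norm_smul, Complex.norm_real, norm_inv, norm_norm, inv_mul_cancel₀ hn.ne']
  have h2 := h (y := (κ, y)) (by
    rw [Prod.dist_eq, dist_zero_right, dist_zero_right]
    exact max_lt (hκ.trans_le (min_le_left _ _)) (hy.trans_le (min_le_left _ _)))
    (x, ((‖v‖⁻¹ : ℝ) : ℂ) • v) hx hx' h1
  have h3 : lv rh (κ, (x, y)) (0, ((‖v‖⁻¹ : ℝ) : ℂ) • v) =
      (‖v‖⁻¹) ^ 2 * lv rh (κ, (x, y)) (0, v) := by
    have e : ((0, ((‖v‖⁻¹ : ℝ) : ℂ) • v) : ℂ × (ℂ × ℂ)) = ((‖v‖⁻¹ : ℝ) : ℂ) • ((0, v) : ℂ × (ℂ × ℂ)) :=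
      Prod.ext (by simp) rfl
    have h5 : ContDiffAt ℝ 2 rh ((κ, (x, y)) : ℂ × (ℂ × ℂ)) :=
      rh_cd (n := 2) _ hx0 (pos_small κ hx (hy.trans_le (min_le_right _ _)))
    have h6 := lv_hom ((‖v‖⁻¹ : ℝ) : ℂ) ((0, v) : ℂ × (ℂ × ℂ)) h5
    rw [← e, Complex.norm_real, norm_inv, norm_norm] at h6
    exact h6
  have h4 : FF ε C (κ, y) (x, ((‖v‖⁻¹ : ℝ) : ℂ) • v) = (‖v‖⁻¹) ^ 2 * FF ε C (κ, y) (x, v) := by
    unfold FF
    simp only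
    rw [h3]
    simp only [Prod.smul_fst, Prod.smul_snd, norm_smul, Complex.norm_real, norm_inv, norm_norm]
    ring
  rw [h4] at h2
  have h5 : 0 < (‖v‖⁻¹) ^ 2 := by positivity
  exact (pos_of_mul_pos_right h2 h5.le).le

/-- the function in the standard cell -/
noncomputable def nb (k C : ℝ) (z : E) : ℝ :=
  bump z.1 * Real.log (‖z.2 / z.1 - 1‖ ^ 2 + k * ‖z.1‖ ^ 2) + C * ‖z.2‖ ^ 2

theorem nm_ge {z v : E} (hz : ‖z.2‖ < 1 / 16) : 1 / 4 * (‖v.1‖ ^ 2 + ‖v.2‖ ^ 2) ≤ nm z v := by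
  unfold nm
  have h1 : (1 + ‖z.2‖ ^ 2) ^ 2 ≤ 4 := by
    have h2 : ‖z.2‖ ^ 2 ≤ 1 := by
      have := norm_nonneg z.2
      nlinarith
    have h3 : 0 ≤ ‖z.2‖ ^ 2 := by positivity
    nlinarith
  have h4 : 1 / 4 * ‖v.2‖ ^ 2 ≤ ‖v.2‖ ^ 2 / (1 + ‖z.2‖ ^ 2) ^ 2 := by
    rw [le_div_iff₀ (by positivity)]
    have h5 : 0 ≤ ‖v.2‖ ^ 2 := by positivity
    nlinarith
  have h5 : 0 ≤ ‖v.1‖ ^ 2 := by positivity
  linarith

theorem cd_sq (C : ℝ) (z : E) : ContDiffAt ℝ 2 (fun z : E => C * ‖z.2‖ ^ 2) z :=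
  contDiffAt_const.mul (contDiffAt_snd.norm_sq ℝ)

theorem lv_sq2 (C : ℝ) (z v : E) : lv (fun z : E => C * ‖z.2‖ ^ 2) z v = C * (4 * ‖v.2‖ ^ 2) := by
  rw [lv_smul v C (contDiffAt_snd.norm_sq ℝ), lv_sq v (f := fun z : E => z.2) contDiffAt_snd]
  congr 2
  rw [show (fun z : E => z.2) = Prod.snd from rfl, fderiv_snd]
  rfl

/-- the lower bound near the curve `y = 0` -/
theorem near_thm : StNear := by
  intro ε hε
  obtain ⟨C, δ, hC, hδ, hδ', H⟩ := unif' hε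
  refine ⟨(δ / 2) ^ 2, C, δ, by positivity, ?_, hC, hδ, ?_⟩
  · nlinarith
  intro z hz hy v
  have hr0 : red z.1 ≠ 0 := fun h => hz.1 (red_zero.1 h)
  have hnm : 0 ≤ nm z v := by
    unfold nm
    positivity
  rw [lev_lv]
  by_cases hbig : 1 / 4 < ‖red z.1‖
  · -- far away from the lattice
    have h1 : near ((δ / 2) ^ 2) C =ᶠ[𝓝 z] fun z : E => C * ‖z.2‖ ^ 2 := by
      have h2 := (continuous_fst.tendsto z).eventually (chi_near_zero hbig)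
      filter_upwards [h2] with z' hz'
      unfold near
      rw [hz']
      ring
    rw [lv_congr v h1, lv_sq2]
    have h3 : 0 ≤ C * (4 * ‖v.2‖ ^ 2) := by positivity
    nlinarith
  rw [not_lt] at hbig
  have h1 : near ((δ / 2) ^ 2) C =ᶠ[𝓝 z] fun t => nb ((δ / 2) ^ 2) C (t - (lp z.1, 0)) := by
    have h2 := (continuous_fst.tendsto z).eventually (red_near (x := z.1) (by linarith))
    filter_upwards [h2] with z' hz'
    unfold near nb chi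
    rw [hz']
    simp
  rw [lv_congr v h1, lv_shift]
  have e1 : z - (lp z.1, 0) = (red z.1, z.2) := by
    rw [red_eq]
    ext <;> simp
  rw [e1]
  set r := red z.1 with hr
  have hδ2 : ‖((δ / 2 : ℝ) : ℂ)‖ = δ / 2 := by
    rw [Complex.norm_real, Real.norm_eq_abs, abs_of_pos (by linarith)]
  have hk : ∀ x : ℂ, (δ / 2) ^ 2 * ‖x‖ ^ 2 = ‖((δ / 2 : ℝ) : ℂ) * x‖ ^ 2 := by
    intro x
    rw [norm_mul, hδ2]
    ring
  by_cases hsm : ‖r‖ < 1 / 8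
  · -- close to the lattice: plurisubharmonic
    have h2 : nb ((δ / 2) ^ 2) C =ᶠ[𝓝 (r, z.2)] fun t : E =>
        Real.log (‖t.2 / t.1 - 1‖ ^ 2 + ‖((δ / 2 : ℝ) : ℂ) * t.1‖ ^ 2) + C * ‖t.2‖ ^ 2 := by
      have h3 : ∀ᶠ t : E in 𝓝 (r, z.2), ‖t.1‖ < 1 / 8 := by
        have h4 : ContinuousAt (fun t : E => ‖t.1‖) (r, z.2) := by fun_prop
        exact h4.eventually_lt continuousAt_const hsm
      filter_upwards [h3] with t ht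
      unfold nb
      rw [bump_one ht.le, one_mul, hk]
    rw [lv_congr v h2]
    have hpos : 0 < ‖z.2 / r - 1‖ ^ 2 + ‖((δ / 2 : ℝ) : ℂ) * r‖ ^ 2 := by
      have h5 : 0 < ‖((δ / 2 : ℝ) : ℂ) * r‖ := by
        rw [norm_mul, hδ2]
        have := norm_pos_iff.2 hr0
        positivity
      positivity
    have hf : ContDiffAt ℂ ω (fun t : E => t.2 / t.1 - 1) (r, z.2) := by
      fun_prop (disch := assumption)
    have hg : ContDiffAt ℂ ω (fun t : E => ((δ / 2 : ℝ) : ℂ) * t.1) (r, z.2) := by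
      fun_prop
    rw [lv_add v (cd_log_two (hf.restrict_scalars ℝ |>.of_le le_top)
      (hg.restrict_scalars ℝ |>.of_le le_top) hpos) (cd_sq C _), lv_sq2]
    have h6 := lv_log_two_nonneg v hf hg hpos
    have h7 : 0 ≤ C * (4 * ‖v.2‖ ^ 2) := by positivity
    nlinarith
  · rw [not_lt] at hsm
    have hyy : ‖z.2‖ < 1 / 16 := hy.trans_le hδ'
    have h2 : nb ((δ / 2) ^ 2) C = fun t : E => rh (((δ / 2 : ℝ) : ℂ), t) + C * ‖t.2‖ ^ 2 := by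
      funext t
      unfold nb rh
      simp only
      rw [hk]
    have hrh := rh_cd (n := 2) (((δ / 2 : ℝ) : ℂ), (r, z.2)) hr0
      (pos_small ((δ / 2 : ℝ) : ℂ) hsm hyy)
    have hcd : ContDiffAt ℝ 2 (fun t : E => rh (((δ / 2 : ℝ) : ℂ), t)) (r, z.2) :=
      hrh.comp (f := fun t : E => (((δ / 2 : ℝ) : ℂ), t)) (r, z.2) (by fun_prop)
    rw [h2, lv_add v hcd (cd_sq C _), lv_sq2]
    have h3 : lv (fun t : E => rh (((δ / 2 : ℝ) : ℂ), t)) (r, z.2) v =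
        lv rh (((δ / 2 : ℝ) : ℂ), (r, z.2)) (0, v) := by
      have e : (fun ζ : ℂ => (fun t : E => rh (((δ / 2 : ℝ) : ℂ), t)) ((r, z.2) + ζ • v)) =
          fun ζ : ℂ => rh ((((δ / 2 : ℝ) : ℂ), (r, z.2)) + ζ • ((0, v) : ℂ × (ℂ × ℂ))) := by
        funext ζ
        simp
      unfold lv
      rw [e]
    rw [h3]
    have h4 := H ((δ / 2 : ℝ) : ℂ) r z.2 v (by rw [hδ2]; linarith) hy hsm hbig
    unfold FF at h4
    simp only at h4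
    have h5 := nm_ge (z := z) (v := v) hyy
    have h6 : ε * (1 / 4 * (‖v.1‖ ^ 2 + ‖v.2‖ ^ 2)) ≤ ε * nm z v :=
      mul_le_mul_of_nonneg_left h5 hε.le
    linarith

end Pool.Agent.U474.SP
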