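import Pool.Agent.U84.SP.Log

set_option autoImplicit false

/-!
# The reduction modulo the lattice
-/

open Set Topology Filter
open scoped ContDiff

namespace Pool.Agent.U474.SP

open Pool.Agent.Y184.SP Pool.Agent.U84.SP

/-- the lattice point next to `x` -/
noncomputable def lp (x : ℂ) : ℂ := ((round x.re : ℤ) : ℂ) + ((round x.im : ℤ) : ℂ) * Complex.I

theorem lp_mem (x : ℂ) : lp x ∈ Lam := ⟨round x.re, round x.im, rfl⟩

theorem red_eq (x : ℂ) : red x = x - lp x := by
  unfold red lp
  ring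

theorem lp_re (x : ℂ) : (lp x).re = round x.re := by
  simp [lp]

theorem lp_im (x : ℂ) : (lp x).im = round x.im := by
  simp [lp]

theorem red_re (x : ℂ) : (red x).re = x.re - round x.re := by
  rw [red_eq, Complex.sub_re, lp_re]

theorem red_im (x : ℂ) : (red x).im = x.im - round x.im := by
  rw [red_eq, Complex.sub_im, lp_im]

theorem round_unique {y : ℝ} {n : ℤ} (h : |y - n| < 1 / 2) : round y = n := by
  have h1 := round_le y n
  have h2 : |((round y - n : ℤ) : ℝ)| < 1 := by
    have h3 : ((round y - n : ℤ) : ℝ) = (y - n) - (y - round y) := by push_cast; ring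
    rw [h3]
    have h4 := abs_sub (y - n) (y - round y)
    linarith
  have h5 : |round y - n| < 1 := by exact_mod_cast h2
  have h6 : round y - n = 0 := Int.abs_lt_one_iff.1 h5
  omega

theorem lp_unique {x l : ℂ} (hl : l ∈ Lam) (h : ‖x - l‖ < 1 / 2) : lp x = l := by
  obtain ⟨m, n, rfl⟩ := hl
  have h1 := Complex.abs_re_le_norm (x - (m + n * Complex.I))
  have h2 := Complex.abs_im_le_norm (x - (m + n * Complex.I))
  have h3 : round x.re = m := by
    apply round_unique
    simp at h1
    exact lt_of_le_of_lt h1 h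
  have h4 : round x.im = n := by
    apply round_unique
    simp at h2
    exact lt_of_le_of_lt h2 h
  unfold lp
  rw [h3, h4]

theorem lp_near {x : ℂ} (h : ‖red x‖ < 1 / 2) : ∀ᶠ x' in 𝓝 x, lp x' = lp x := by
  have h1 : ContinuousAt (fun x' : ℂ => ‖x' - lp x‖) x := by fun_prop
  have h2 : ‖x - lp x‖ < 1 / 2 := by rw [← red_eq]; exact h
  filter_upwards [h1.eventually_lt continuousAt_const h2] with x' hx'
  exact lp_unique (lp_mem x) hx'

theorem red_near {x : ℂ} (h : ‖red x‖ < 1 / 2) : ∀ᶠ x' in 𝓝 x, red x' = x' - lp x := by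
  filter_upwards [lp_near h] with x' hx'
  rw [red_eq, hx']

theorem red_le (x : ℂ) {l : ℂ} (hl : l ∈ Lam) : ‖red x‖ ≤ ‖x - l‖ := by
  obtain ⟨m, n, rfl⟩ := hl
  have h1 : ‖red x‖ ^ 2 ≤ ‖x - (m + n * Complex.I)‖ ^ 2 := by
    rw [Complex.sq_norm, Complex.sq_norm, Complex.normSq_apply, Complex.normSq_apply, red_re,
      red_im]
    have e1 : (x - (m + n * Complex.I)).re = x.re - m := by simp
    have e2 : (x - (m + n * Complex.I)).im = x.im - n := by simp
    rw [e1, e2]
    have h3 := round_le x.re m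
    have h4 := round_le x.im n
    have h5 := sq_le_sq.2 h3
    have h6 := sq_le_sq.2 h4
    nlinarith
  exact le_of_sq_le_sq h1 (norm_nonneg _)

theorem red_lip (x x' : ℂ) : ‖red x‖ ≤ ‖x - x'‖ + ‖red x'‖ := by
  have h1 := red_le x (lp_mem x')
  have h2 : x - lp x' = (x - x') + red x' := by rw [red_eq x']; ring
  rw [h2] at h1
  exact h1.trans (norm_add_le _ _)

theorem red_cont : Continuous fun x => ‖red x‖ := by
  rw [continuous_iff_continuousAt]
  intro x
  rw [ContinuousAt, tendsto_iff_norm_sub_tendsto_zero]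
  have h0 : Tendsto (fun x' : ℂ => ‖x' - x‖) (𝓝 x) (𝓝 0) := by
    have : ContinuousAt (fun x' : ℂ => ‖x' - x‖) x := by fun_prop
    simpa using this.tendsto
  refine squeeze_zero (fun _ => norm_nonneg _) (fun x' => ?_) h0
  rw [Real.norm_eq_abs, abs_le]
  have h1 := red_lip x x'
  have h2 := red_lip x' x
  rw [norm_sub_rev] at h1
  constructor <;> linarith

theorem red_zero {x : ℂ} : red x = 0 ↔ x ∈ Lam := by
  constructor
  · intro h
    have : x = lp x := by
      rw [red_eq] at h
      exact sub_eq_zero.1 h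
    rw [this]
    exact lp_mem x
  · intro h
    have h1 := red_le x h
    rw [sub_self, norm_zero] at h1
    exact norm_le_zero_iff.1 h1

theorem lam_sub {l l' : ℂ} (h : l ∈ Lam) (h' : l' ∈ Lam) : l - l' ∈ Lam := by
  obtain ⟨m, n, rfl⟩ := h
  obtain ⟨m', n', rfl⟩ := h'
  refine ⟨m - m', n - n', ?_⟩
  push_cast
  ring

theorem lam_add {l l' : ℂ} (h : l ∈ Lam) (h' : l' ∈ Lam) : l + l' ∈ Lam := by
  obtain ⟨m, n, rfl⟩ := h
  obtain ⟨m', n', rfl⟩ := h'
  refine ⟨m + m', n + n', ?_⟩
  push_cast
  ring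

/-- the norm of `red` is periodic -/
theorem red_per (x : ℂ) {l : ℂ} (hl : l ∈ Lam) : ‖red (x + l)‖ = ‖red x‖ := by
  apply le_antisymm
  · have h1 := red_le (x + l) (lam_add hl (lp_mem x))
    have e : x + l - (l + lp x) = red x := by rw [red_eq]; ring
    rwa [e] at h1
  · have h1 := red_le x (lam_sub (lp_mem (x + l)) hl)
    have e : x - (lp (x + l) - l) = red (x + l) := by rw [red_eq]; ring
    rwa [e] at h1

theorem red_per' (x : ℂ) {l : ℂ} (hl : l ∈ Lam) (h : ‖red x‖ < 1 / 2) : red (x + l) = red x := by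
  have h1 : ‖x + l - (l + lp x)‖ < 1 / 2 := by
    have e : x + l - (l + lp x) = red x := by rw [red_eq]; ring
    rw [e]; exact h
  have h2 := lp_unique (lam_add hl (lp_mem x)) h1
  rw [red_eq, h2, red_eq]
  ring

/-- `red` is periodic: it only depends on the fractional parts -/
theorem red_add (x : ℂ) {l : ℂ} (hl : l ∈ Lam) : red (x + l) = red x := by
  obtain ⟨m, n, rfl⟩ := hl
  apply Complex.ext
  · rw [red_re, red_re]
    have e : (x + (m + n * Complex.I)).re = x.re + m := by simp
    rw [e, round_add_intCast]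
    push_cast
    ring
  · rw [red_im, red_im]
    have e : (x + (m + n * Complex.I)).im = x.im + n := by simp
    rw [e, round_add_intCast]
    push_cast
    ring

theorem chi_add (x : ℂ) {l : ℂ} (hl : l ∈ Lam) : chi (x + l) = chi x := by
  unfold chi
  rw [red_add x hl]

theorem bump_one {x : ℂ} (h : ‖x‖ ≤ 1 / 8) : bump x = 1 := by
  apply bump.one_of_mem_closedBall
  rw [mem_closedBall_zero_iff]
  exact h

theorem bump_zero {x : ℂ} (h : 1 / 4 ≤ ‖x‖) : bump x = 0 := by
  apply bump.zero_of_le_dist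
  rw [dist_zero_right]
  exact h

theorem chi_near_zero {x : ℂ} (h : 1 / 4 < ‖red x‖) : ∀ᶠ x' in 𝓝 x, chi x' = 0 := by
  filter_upwards [continuousAt_const.eventually_lt red_cont.continuousAt h] with x' hx'
  exact bump_zero hx'.le

theorem chi_near_one {x : ℂ} (h : ‖red x‖ < 1 / 8) : ∀ᶠ x' in 𝓝 x, chi x' = 1 := by
  filter_upwards [red_cont.continuousAt.eventually_lt continuousAt_const h] with x' hx'
  exact bump_one hx'.le

/-- `chi` is smooth -/
theorem chi_cd {n : ℕ∞} (x : ℂ) : ContDiffAt ℝ n chi x := by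
  by_cases h : ‖red x‖ < 1 / 2
  · have h1 : chi =ᶠ[𝓝 x] fun x' => bump (x' - lp x) := by
      filter_upwards [red_near h] with x' hx'
      unfold chi
      rw [hx']
    refine ContDiffAt.congr_of_eventuallyEq ?_ h1
    exact (bump.contDiff.comp (contDiff_id.sub contDiff_const)).contDiffAt
  · have h1 : chi =ᶠ[𝓝 x] fun _ => (0 : ℝ) := chi_near_zero (by linarith [not_lt.1 h])
    exact contDiffAt_const.congr_of_eventuallyEq h1

/-- translation -/
theorem lv_shift {V : Type*} [NormedAddCommGroup V] [NormedSpace ℂ V] (f : V → ℝ) (a z v : V) :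
    lv (fun t => f (t - a)) z v = lv f (z - a) v := by
  have h : (fun ζ : ℂ => (fun t => f (t - a)) (z + ζ • v)) = fun ζ : ℂ => f (z - a + ζ • v) := by
    funext ζ
    show f (z + ζ • v - a) = f (z - a + ζ • v)
    congr 1
    abel
  unfold lv
  rw [h]

end Pool.Agent.U474.SP
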